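import Mathlib

namespace Pool.Agent.H.MP_5ab9c0_an

open Filter Topology Set OnePoint

def X : Type := C(OnePoint ℕ, ℝ) × ℝ

noncomputable instance : NormedAddCommGroup X :=
  inferInstanceAs (NormedAddCommGroup (C(OnePoint ℕ, ℝ) × ℝ))

noncomputable instance : NormedSpace ℝ X := inferInstanceAs (NormedSpace ℝ (C(OnePoint ℕ, ℝ) × ℝ))

instance : CompleteSpace X := inferInstanceAs (CompleteSpace (C(OnePoint ℕ, ℝ) × ℝ))

noncomputable instance : PartialOrder X :=
  PartialOrder.lift (fun x : X => (x.1, x.1 ∞ + x.2, x.1 ∞ - x.2)) fun x y h => by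
    simp only [Prod.mk.injEq] at h
    exact Prod.ext h.1 (by linarith [h.2.1, h.2.2])

lemma le_iff {x y : X} :
    x ≤ y ↔ (∀ k, x.1 k ≤ y.1 k) ∧ x.1 ∞ + x.2 ≤ y.1 ∞ + y.2 ∧ x.1 ∞ - x.2 ≤ y.1 ∞ - y.2 := Iff.rfl

lemma add1 (x y : X) (k : OnePoint ℕ) : (x + y).1 k = x.1 k + y.1 k := rfl
lemma add2 (x y : X) : (x + y).2 = x.2 + y.2 := rfl
lemma smul1 (c : ℝ) (y : X) (k : OnePoint ℕ) : (c • y).1 k = c * y.1 k := rfl
lemma smul2 (c : ℝ) (y : X) : (c • y).2 = c * y.2 := rfl
lemma zero1 (k : OnePoint ℕ) : (0 : X).1 k = 0 := rfl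
lemma zero2 : (0 : X).2 = 0 := rfl

instance : IsOrderedAddMonoid X where
  add_le_add_left a b h c := by
    rw [le_iff] at h ⊢
    simp only [add1, add2]
    exact ⟨fun k => by linarith [h.1 k], by linarith [h.2.1], by linarith [h.2.2]⟩

instance : PosSMulMono ℝ X where
  smul_le_smul_of_nonneg_left c hc a b h := by
    rw [le_iff] at h ⊢
    simp only [smul1, smul2]
    exact ⟨fun k => by nlinarith [h.1 k], by nlinarith [h.2.1], by nlinarith [h.2.2]⟩

lemma closed : IsClosed {x : X | 0 ≤ x} := by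
  have c (k : OnePoint ℕ) : Continuous fun x : X => x.1 k :=
    (continuous_eval_const k).comp continuous_fst
  have c2 : Continuous fun x : X => x.2 := continuous_snd
  simp only [le_iff, ofPred_and, ofPred_forall]
  exact (isClosed_iInter fun k => isClosed_le continuous_const (c k)).inter
    ((isClosed_le continuous_const ((c _).add c2)).inter
      (isClosed_le continuous_const ((c _).sub c2)))

lemma normal (x y : X) (h0 : 0 ≤ x) (h : x ≤ y) : ‖x‖ ≤ 1 * ‖y‖ := by
  rw [le_iff] at h0 h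
  simp only [zero1, zero2] at h0
  have a (k : OnePoint ℕ) : y.1 k ≤ ‖y‖ :=
    (le_abs_self _).trans ((y.1.norm_coe_le_norm k).trans (norm_fst_le y))
  rw [one_mul]
  refine max_le ((ContinuousMap.norm_le _ (norm_nonneg _)).2 fun k => ?_) ?_
  · exact abs_le.2 ⟨by linarith [h0.1 k, norm_nonneg y], (h.1 k).trans (a k)⟩
  · exact abs_le.2 ⟨by linarith [h0.2.1, h.1 ∞, a ∞], by linarith [h0.2.2, h.1 ∞, a ∞]⟩

/-- indicator of a finite set of naturals -/
noncomputable def ind (s : Finset ℕ) : C(OnePoint ℕ, ℝ) :=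
  continuousMapMkNat (fun n => if n ∈ s then 1 else 0) 0 (tendsto_const_nhds.congr' (by
    rw [← Nat.cofinite_eq_atTop]
    filter_upwards [s.eventually_cofinite_notMem] with n hn
    simp [hn]))

lemma ind_coe (s : Finset ℕ) (n : ℕ) : ind s n = if n ∈ s then 1 else 0 := rfl
lemma ind_inf (s : Finset ℕ) : ind s ∞ = 0 := rfl

noncomputable def seq (N : ℕ) : X := (ind (Finset.range N), 0)

lemma seq_mono : Monotone seq := fun N M h => by
  refine le_iff.2 ⟨fun k => ?_, le_rfl, le_rfl⟩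
  induction k using OnePoint.rec with
  | infty => exact le_rfl
  | coe n =>
    simp only [seq, ind_coe, Finset.mem_range]
    split_ifs <;> first | omega | norm_num

lemma ub {u : X} : u ∈ upperBounds (range seq) ↔ (∀ k, 1 ≤ u.1 k) ∧ |u.2| ≤ u.1 ∞ := by
  constructor
  · intro h
    have h1 (n : ℕ) : 1 ≤ u.1 n := by
      simpa [seq, ind_coe] using (le_iff.1 (h ⟨n + 1, rfl⟩)).1 n
    have h2 := (le_iff.1 (h ⟨0, rfl⟩)).2
    simp only [seq, ind_inf] at h2
    refine ⟨fun k => ?_, abs_le.2 ⟨by linarith [h2.1], by linarith [h2.2]⟩⟩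
    induction k using OnePoint.rec with
    | infty => exact ge_of_tendsto' ((continuous_iff_from_nat _).1 u.1.continuous) h1
    | coe n => exact h1 n
  · rintro ⟨h1, h2⟩ _ ⟨N, rfl⟩
    have := abs_le.1 h2
    refine le_iff.2 ⟨fun k => le_trans ?_ (h1 k), ?_, ?_⟩
    · induction k using OnePoint.rec with
      | infty => exact zero_le_one
      | coe n =>
        simp only [seq, ind_coe]
        split_ifs <;> norm_num
    · simp only [seq, ind_inf]; linarith
    · simp only [seq, ind_inf]; linarith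

noncomputable def top (t : ℝ) : X := (1, t)

lemma top_ub {t : ℝ} (ht : |t| ≤ 1) : top t ∈ upperBounds (range seq) :=
  ub.2 ⟨fun _ => le_rfl, ht⟩

lemma top_min {t : ℝ} {v : X} (hv : v ∈ upperBounds (range seq)) (h : v ≤ top t) : v = top t := by
  have h1 := (ub.1 hv).1
  obtain ⟨h2, h3, h4⟩ := le_iff.1 h
  have h5 : ∀ k, v.1 k = 1 := fun k => (h2 k).antisymm (h1 k)
  refine Prod.ext (ContinuousMap.ext h5) ?_
  simp only [top, h5, ContinuousMap.one_apply] at h3 h4 ⊢
  linarith

lemma no_lub (s : X) : ¬ IsLUB (range seq) s := fun h => by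
  have h1 := top_min h.1 (h.2 (top_ub (t := 0) (by norm_num)))
  have h2 := top_min h.1 (h.2 (top_ub (t := 1) (by norm_num)))
  have := congrArg Prod.snd (h1.symm.trans h2)
  simp [top] at this

lemma not_conv (l : X) : ¬ Tendsto seq atTop (𝓝 l) := fun h => by
  refine no_lub l ⟨?_, fun u hu => ?_⟩
  · rintro _ ⟨N, rfl⟩
    rw [← sub_nonneg]
    refine closed.mem_of_tendsto (h.sub_const _) ?_
    filter_upwards [eventually_ge_atTop N] with M hM using sub_nonneg.2 (seq_mono hM)
  · rw [← sub_nonneg]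
    exact closed.mem_of_tendsto (h.const_sub _)
      (Eventually.of_forall fun N => sub_nonneg.2 (hu ⟨N, rfl⟩))

lemma lim {J : Type*} [Preorder J] [Nonempty J] {a : J → ℝ} (ha : Monotone a) {b : ℝ}
    (hb : ∀ j, a j ≤ b) (h : ∀ c ≤ b, (∀ j, a j ≤ c) → b ≤ c) : Tendsto a atTop (𝓝 b) :=
  tendsto_atTop_isLUB ha ⟨forall_mem_range.2 hb, fun c hc => (le_total c b).elim
    (fun e => h c e fun j => hc ⟨j, rfl⟩) id⟩

lemma conv {J : Type*} [Preorder J] [Nonempty J] (x : J → X) (hx : Monotone x) (s : X)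
    (hs : IsLUB (range x) s) : Tendsto x atTop (𝓝 s) := by
  have h0 (j : J) := le_iff.1 (hs.1 ⟨j, rfl⟩)
  have h1 (u : X) (h : ∀ j, x j ≤ u) := le_iff.1 (hs.2 (forall_mem_range.2 h))
  have hA : Tendsto (fun j => (x j).1 ∞ + (x j).2) atTop (𝓝 (s.1 ∞ + s.2)) := by
    refine lim (fun i j h => (le_iff.1 (hx h)).2.1) (fun j => (h0 j).2.1) fun c hc h => ?_
    have := (h1 (s.1, c - s.1 ∞) fun j =>
      le_iff.2 ⟨(h0 j).1, by linarith [h j], by linarith [(h0 j).2.2]⟩).2.1
    linarith
  have hB : Tendsto (fun j => (x j).1 ∞ - (x j).2) atTop (𝓝 (s.1 ∞ - s.2)) := by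
    refine lim (fun i j h => (le_iff.1 (hx h)).2.2) (fun j => (h0 j).2.2) fun c hc h => ?_
    have := (h1 (s.1, s.1 ∞ - c) fun j =>
      le_iff.2 ⟨(h0 j).1, by linarith [(h0 j).2.1], by linarith [h j]⟩).2.2
    linarith
  refine Tendsto.prodMk_nhds (ContinuousMap.tendsto_of_monotone_of_pointwise
    (fun i j h => (le_iff.1 (hx h)).1) fun k => ?_) ?_
  · induction k using OnePoint.rec with
    | infty => convert (hA.add hB).div_const 2 using 2 <;> ring
    | coe n =>
      refine lim (fun i j h => (le_iff.1 (hx h)).1 n) (fun j => (h0 j).1 n) fun c hc h => ?_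
      have := (h1 (s.1 + (c - s.1 n) • ind {n}, s.2) fun j =>
        le_iff.2 ⟨fun k => ?_, by simpa [ind_inf] using (h0 j).2.1,
          by simpa [ind_inf] using (h0 j).2.2⟩).1 n
      · simpa [ind_coe] using this
      · induction k using OnePoint.rec with
        | infty => simpa [ind_inf] using (h0 j).1 ∞
        | coe m =>
          rcases eq_or_ne m n with rfl | hm
          · simpa [ind_coe] using h j
          · simpa [ind_coe, hm] using (h0 j).1 m
  · convert (hA.sub hB).div_const 2 using 2 <;> ring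

end Pool.Agent.H.MP_5ab9c0_an
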